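import Pool.Agent.helper83.FI4B.Spec

set_option autoImplicit false

namespace Pool.Agent.FI4B

open Pool.Agent.helper58.DC Pool.Agent.DI Pool.Agent.GR Pool.Agent.OB Pool.Agent.DR Pool.Agent.FI Pool.Agent.FI3 Pool.Agent.FI4

section

variable {G : Type} [Group G]

/-- the elements which act trivially modulo `K` -/
def BAP_T1 (K D T : Subgroup G) (hD : ∀ t ∈ T, ∀ d ∈ D, t * d * t⁻¹ ∈ D) : Subgroup G where
  carrier := {t | t ∈ T ∧ ∀ d ∈ D, t * d * t⁻¹ * d⁻¹ ∈ K}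
  mul_mem' := by
    rintro a b ⟨ha, ha'⟩ ⟨hb, hb'⟩
    refine ⟨T.mul_mem ha hb, fun d hd => ?_⟩
    have h1 := ha' (b * d * b⁻¹) (hD b hb d hd)
    have h2 := K.mul_mem h1 (hb' d hd)
    have e : a * b * d * (a * b)⁻¹ * d⁻¹ = a * (b * d * b⁻¹) * a⁻¹ * (b * d * b⁻¹)⁻¹ * (b * d * b⁻¹ * d⁻¹) := by
      group
    rw [e]
    exact h2
  one_mem' := by
    refine ⟨T.one_mem, fun d _ => ?_⟩
    simp
  inv_mem' := by
    rintro a ⟨ha, ha'⟩
    refine ⟨T.inv_mem ha, fun d hd => ?_⟩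
    have h1 := ha' (a⁻¹ * d * a) (by
      have := hD a⁻¹ (T.inv_mem ha) d hd
      rwa [inv_inv] at this)
    have h2 := K.inv_mem h1
    have e : a⁻¹ * d * a⁻¹⁻¹ * d⁻¹ = (a * (a⁻¹ * d * a) * a⁻¹ * (a⁻¹ * d * a)⁻¹)⁻¹ := by
      group
    rw [e]
    exact h2

/-- the elements of `D` fixed by `t` modulo `K` -/
def BAP_K1 (K D : Subgroup G) (t : G) (hab : ∀ a ∈ D, ∀ b ∈ D, a * b = b * a)
    (hD : ∀ d ∈ D, t * d * t⁻¹ ∈ D) : Subgroup G where
  carrier := {d | d ∈ D ∧ t * d * t⁻¹ * d⁻¹ ∈ K}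
  mul_mem' := by
    rintro a b ⟨ha, ha'⟩ ⟨hb, hb'⟩
    refine ⟨D.mul_mem ha hb, ?_⟩
    have h2 := K.mul_mem ha' hb'
    have hc := hab _ (D.inv_mem ha) _ (D.mul_mem (hD b hb) (D.inv_mem hb))
    have e : t * (a * b) * t⁻¹ * (a * b)⁻¹ = t * a * t⁻¹ * a⁻¹ * (t * b * t⁻¹ * b⁻¹) := by
      calc t * (a * b) * t⁻¹ * (a * b)⁻¹ = t * a * t⁻¹ * ((t * b * t⁻¹ * b⁻¹) * a⁻¹) := by group
        _ = t * a * t⁻¹ * (a⁻¹ * (t * b * t⁻¹ * b⁻¹)) := by rw [hc]
        _ = _ := by group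
    rw [e]
    exact h2
  one_mem' := by
    refine ⟨D.one_mem, ?_⟩
    simp
  inv_mem' := by
    rintro a ⟨ha, ha'⟩
    refine ⟨D.inv_mem ha, ?_⟩
    have h2 := K.inv_mem ha'
    have hc := hab _ ha _ (D.inv_mem (hD a ha))
    have e : t * a⁻¹ * t⁻¹ * a⁻¹⁻¹ = (t * a * t⁻¹ * a⁻¹)⁻¹ := by
      calc t * a⁻¹ * t⁻¹ * a⁻¹⁻¹ = (t * a * t⁻¹)⁻¹ * a := by group
        _ = a * (t * a * t⁻¹)⁻¹ := hc.symm
        _ = _ := by group
    rw [e]
    exact h2

/-- powers -/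
theorem BAP_pow (K D : Subgroup G) (t d : G) (hab : ∀ a ∈ D, ∀ b ∈ D, a * b = b * a) (hKD : K ≤ D)
    (hD : ∀ d ∈ D, t * d * t⁻¹ ∈ D) (hK : ∀ k ∈ K, t * k * t⁻¹ ∈ K) (hd : d ∈ D)
    (he : t * (t * d * t⁻¹ * d⁻¹) * t⁻¹ * (t * d * t⁻¹ * d⁻¹)⁻¹ ∈ K) (j : ℕ) :
    ∃ k ∈ K, t ^ j * d * (t ^ j)⁻¹ = (t * d * t⁻¹ * d⁻¹) ^ j * d * k := by
  set e := t * d * t⁻¹ * d⁻¹ with hedef
  have heD : e ∈ D := D.mul_mem (hD d hd) (D.inv_mem hd)
  have hpow : ∀ j : ℕ, ∃ k ∈ K, t * e ^ j * t⁻¹ = e ^ j * k := by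
    intro j
    induction j with
    | zero => exact ⟨1, K.one_mem, by simp⟩
    | succ j ih =>
      obtain ⟨k, hk, h⟩ := ih
      set κ := t * e * t⁻¹ * e⁻¹ with hκ
      have hte : t * e * t⁻¹ = κ * e := by rw [hκ]; group
      refine ⟨k * κ, K.mul_mem hk he, ?_⟩
      have c1 := hab _ (hKD he) _ heD
      calc t * e ^ (j + 1) * t⁻¹ = (t * e ^ j * t⁻¹) * (t * e * t⁻¹) := by rw [pow_succ]; group
        _ = e ^ j * k * (κ * e) := by rw [h, hte]
        _ = e ^ j * (k * (e * κ)) := by rw [c1]; group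
        _ = e ^ j * (e * k * κ) := by
            rw [← mul_assoc k e κ, hab _ (hKD hk) _ heD]
        _ = e ^ (j + 1) * (k * κ) := by rw [pow_succ]; group
  induction j with
  | zero => exact ⟨1, K.one_mem, by simp⟩
  | succ j ih =>
    obtain ⟨k, hk, h⟩ := ih
    obtain ⟨k', hk', h'⟩ := hpow j
    have htd : t * d * t⁻¹ = e * d := by rw [hedef]; group
    have hk'D := hKD hk'
    have hejD : e ^ j ∈ D := D.pow_mem heD j
    refine ⟨k' * (t * k * t⁻¹), K.mul_mem hk' (hK k hk), ?_⟩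
    have c1 : k' * (e * d) = e * d * k' := hab _ hk'D _ (D.mul_mem heD hd)
    calc t ^ (j + 1) * d * (t ^ (j + 1))⁻¹ = t * (t ^ j * d * (t ^ j)⁻¹) * t⁻¹ := by
          rw [pow_succ']; group
      _ = t * (e ^ j * d * k) * t⁻¹ := by rw [h]
      _ = (t * e ^ j * t⁻¹) * (t * d * t⁻¹) * (t * k * t⁻¹) := by group
      _ = e ^ j * (k' * (e * d)) * (t * k * t⁻¹) := by rw [h', htd]; group
      _ = e ^ (j + 1) * d * (k' * (t * k * t⁻¹)) := by rw [c1, pow_succ]; group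

/-- subgroups of index `p` -/
theorem BAP_max [Finite G] (p : ℕ) (hp : p.Prime) (K D : Subgroup G) (hD : IsPGroup p D) (hK : K ≤ D) (hne : K ≠ D) :
    ∃ H : Subgroup G, K ≤ H ∧ H ≤ D ∧ H.relIndex D = p := by
  have := Fact.mk hp
  obtain ⟨a, ha⟩ := (IsPGroup.iff_card.1 hD)
  have hKp : IsPGroup p (K.subgroupOf D) := hD.to_subgroup _
  obtain ⟨b, hb⟩ := (IsPGroup.iff_card.1 hKp)
  have hba : b < a := by
    have h1 : Nat.card (K.subgroupOf D) < Nat.card D := by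
      refine lt_of_le_of_ne (Subgroup.card_le_card_group _) fun h => hne ?_
      have h2 := Subgroup.eq_top_of_card_eq _ h
      exact le_antisymm hK (Subgroup.subgroupOf_eq_top.1 h2)
    rw [ha, hb] at h1
    exact (Nat.pow_lt_pow_iff_right hp.one_lt).1 h1
  obtain ⟨c, rfl⟩ : ∃ c, a = c + 1 := ⟨a - 1, by omega⟩
  obtain ⟨K2, hK2, hKK⟩ := Sylow.exists_subgroup_card_pow_prime_le p (n := b) (m := c)
    (by rw [ha, pow_succ]; exact Dvd.intro _ rfl) (K.subgroupOf D) hb (by omega)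
  refine ⟨K2.map D.subtype, ?_, ?_, ?_⟩
  · intro x hx
    exact ⟨⟨x, hK hx⟩, hKK (Subgroup.mem_subgroupOf.2 hx), rfl⟩
  · exact Subgroup.map_subtype_le K2
  · unfold Subgroup.relIndex
    have e : (K2.map D.subtype).subgroupOf D = K2 := by
      ext x
      rw [Subgroup.mem_subgroupOf]
      constructor
      · rintro ⟨y, hy, hxy⟩
        have : y = x := Subtype.ext hxy
        rw [← this]
        exact hy
      · intro hx
        exact ⟨x, hx, rfl⟩
    rw [e]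
    have h3 := Subgroup.card_mul_index K2
    rw [hK2, ha, pow_succ] at h3
    exact Nat.eq_of_mul_eq_mul_left (pow_pos hp.pos c) h3

end

theorem BAP : BAP_stmt := by
  classical
  intro p hp G _ _ C D T hDp hab
  have := Fact.mk hp
  suffices H : ∀ n : ℕ, ∀ T : Subgroup G, Nat.card T = n → C ≤ T → (∀ t ∈ T, ∀ d ∈ D, t * d * t⁻¹ ∈ D) →
      (∀ t ∈ T, (∀ d ∈ D, t * d = d * t) ↔ t ∈ C) → ¬ p ∣ C.relIndex T →
      (∀ a ∈ T, ∀ b ∈ T, a * b * a⁻¹ * b⁻¹ ∈ C) →
      ∃ S : Finset (Subgroup G), (∀ H ∈ S, H ≤ D ∧ H.relIndex D = p) ∧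
        (∀ u ∈ D, (∃ t ∈ T, t ∉ C ∧ t * u = u * t) → ∃ H ∈ S, u ∈ H) ∧
          S.card ≤ (C.relIndex T).primeFactorsList.length by
    exact H _ T rfl
  intro n
  induction n using Nat.strong_induction_on with
  | _ n IH =>
    intro T hn hCT hTD hTC hpi hcom
    by_cases hall : ∀ t ∈ T, t ∈ C
    · refine ⟨∅, by simp, ?_, by simp⟩
      rintro u - ⟨t, ht, htC, -⟩
      exact absurd (hall t ht) htC
    push Not at hall
    obtain ⟨t0, ht0, ht0C⟩ := hall
    set 𝒦 : Set (Subgroup G) := {K | K ≤ D ∧ (∀ t ∈ T, ∀ k ∈ K, t * k * t⁻¹ ∈ K) ∧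
      ∃ t ∈ T, ∃ d ∈ D, t * d * t⁻¹ * d⁻¹ ∉ K} with h𝒦
    have hbot : (⊥ : Subgroup G) ∈ 𝒦 := by
      refine ⟨bot_le, ?_, t0, ht0, ?_⟩
      · intro t _ k hk
        rw [Subgroup.mem_bot] at hk ⊢
        rw [hk]
        group
      · by_contra hcon
        push Not at hcon
        apply ht0C
        refine (hTC t0 ht0).1 fun d hd => ?_
        have h1 := hcon d hd
        rw [Subgroup.mem_bot] at h1
        calc t0 * d = (t0 * d * t0⁻¹ * d⁻¹) * (d * t0) := by group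
          _ = d * t0 := by rw [h1, one_mul]
    obtain ⟨K, hKmax⟩ := (Set.toFinite 𝒦).exists_maximal ⟨⊥, hbot⟩
    obtain ⟨hKD, hKT, s, hs, d0, hd0, hsd0⟩ := hKmax.prop
    have hKneD : K ≠ D := by
      rintro rfl
      exact hsd0 (K.mul_mem (hTD s hs d0 hd0) (K.inv_mem hd0))
    set T1 := BAP_T1 K D T hTD with hT1
    have hT1T : T1 ≤ T := fun x hx => hx.1
    have hT1ne : ¬ T ≤ T1 := fun h => hsd0 ((h hs).2 d0 hd0)
    have hCT1 : C ≤ T1 := by
      intro c hc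
      refine ⟨hCT hc, fun d hd => ?_⟩
      have h1 := (hTC c (hCT hc)).2 hc d hd
      rw [h1]
      simp
    -- the claim
    have claim : ∀ t ∈ T, t ∉ T1 → ∀ u ∈ D, t * u = u * t → u ∈ K := by
      intro t ht htT1 u hu htu
      set K1 := BAP_K1 K D t hab (hTD t ht) with hK1
      have hKK1 : K ≤ K1 := fun k hk => ⟨hKD hk, K.mul_mem (hKT t ht k hk) (K.inv_mem hk)⟩
      have hK1D : K1 ≤ D := fun k hk => hk.1
      have huK1 : u ∈ K1 := by
        refine ⟨hu, ?_⟩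
        rw [htu]
        simp
      have hK1T : ∀ s ∈ T, ∀ k ∈ K1, s * k * s⁻¹ ∈ K1 := by
        rintro s hs k ⟨hkD, hk⟩
        refine ⟨hTD s hs k hkD, ?_⟩
        have hc : t⁻¹ * s⁻¹ * t * s ∈ C := by
          have := hcom t⁻¹ (T.inv_mem ht) s⁻¹ (T.inv_mem hs)
          rwa [inv_inv, inv_inv] at this
        have hcc := (hTC _ (hCT hc)).2 hc k hkD
        have h1 := hKT s hs _ hk
        have e : t * (s * k * s⁻¹) * t⁻¹ * (s * k * s⁻¹)⁻¹ = s * (t * k * t⁻¹ * k⁻¹) * s⁻¹ := by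
          calc t * (s * k * s⁻¹) * t⁻¹ * (s * k * s⁻¹)⁻¹
              = s * t * ((t⁻¹ * s⁻¹ * t * s) * k) * (t⁻¹ * s⁻¹ * t * s)⁻¹ * t⁻¹ * s⁻¹ * (s * k * s⁻¹)⁻¹ := by group
            _ = s * t * (k * (t⁻¹ * s⁻¹ * t * s)) * (t⁻¹ * s⁻¹ * t * s)⁻¹ * t⁻¹ * s⁻¹ * (s * k * s⁻¹)⁻¹ := by
                rw [hcc]
            _ = _ := by group
        rw [e]
        exact h1
      by_cases hK1m : K1 ∈ 𝒦
      · exact hKmax.le_of_ge hK1m hKK1 huK1
      · exfalso
        have hall : ∀ s ∈ T, ∀ d ∈ D, s * d * s⁻¹ * d⁻¹ ∈ K1 := by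
          by_contra hcon
          push Not at hcon
          exact hK1m ⟨hK1D, hK1T, hcon⟩
        apply htT1
        refine ⟨ht, fun d hd => ?_⟩
        have he := hall t ht d hd
        have heD : t * d * t⁻¹ * d⁻¹ ∈ D := he.1
        have hnorm : (C.subgroupOf T).Normal := by
          refine ⟨fun c hc g => ?_⟩
          rw [Subgroup.mem_subgroupOf] at hc ⊢
          have h1 := C.mul_mem (hcom (g : G) g.2 (c : G) c.2) hc
          have e : ((g * c * g⁻¹ : T) : G) = (g : G) * c * (g : G)⁻¹ * (c : G)⁻¹ * c := by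
            push_cast
            group
          rw [e]
          exact h1
        have hpowC : t ^ (C.relIndex T) ∈ C := by
          have h1 := Subgroup.pow_index_mem (C.subgroupOf T) ⟨t, ht⟩
          rw [Subgroup.mem_subgroupOf] at h1
          exact h1
        obtain ⟨k, hk, hkk⟩ := BAP_pow K D t d hab hKD (hTD t ht) (hKT t ht) hd he.2 (C.relIndex T)
        have h2 := (hTC _ (hCT hpowC)).2 hpowC d hd
        rw [h2, mul_inv_cancel_right] at hkk
        have h3 : (t * d * t⁻¹ * d⁻¹) ^ (C.relIndex T) ∈ K := by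
          have h4 : (t * d * t⁻¹ * d⁻¹) ^ (C.relIndex T) = k⁻¹ := by
            have hc := hab _ hd _ (hKD hk)
            have h5 : (t * d * t⁻¹ * d⁻¹) ^ (C.relIndex T) * (d * k) = d := by
              rw [← mul_assoc]
              exact hkk.symm
            rw [hc] at h5
            calc (t * d * t⁻¹ * d⁻¹) ^ (C.relIndex T)
                = (t * d * t⁻¹ * d⁻¹) ^ (C.relIndex T) * (k * d) * d⁻¹ * k⁻¹ := by group
              _ = k⁻¹ := by rw [h5]; group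
          rw [h4]
          exact K.inv_mem hk
        -- coprime powers
        obtain ⟨m, hm⟩ := hDp ⟨_, heD⟩
        have hm' : (t * d * t⁻¹ * d⁻¹) ^ (p ^ m) = 1 := by
          have := congrArg (fun x : D => (x : G)) hm
          simpa using this
        have hco : Nat.Coprime (C.relIndex T) (p ^ m) :=
          Nat.Coprime.pow_right m ((Nat.Prime.coprime_iff_not_dvd hp).2 hpi).symm
        have h6 := Nat.gcd_eq_gcd_ab (C.relIndex T) (p ^ m)
        rw [hco.gcd_eq_one] at h6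
        have h7 : t * d * t⁻¹ * d⁻¹ = ((t * d * t⁻¹ * d⁻¹) ^ (C.relIndex T)) ^ (Nat.gcdA (C.relIndex T) (p ^ m)) := by
          have h8 : (t * d * t⁻¹ * d⁻¹) ^ ((1 : ℕ) : ℤ) = (t * d * t⁻¹ * d⁻¹) ^
              (((C.relIndex T : ℕ) : ℤ) * Nat.gcdA (C.relIndex T) (p ^ m) +
                ((p ^ m : ℕ) : ℤ) * Nat.gcdB (C.relIndex T) (p ^ m)) := by rw [h6]
          rw [zpow_add, zpow_mul, zpow_mul, zpow_natCast, zpow_natCast, zpow_natCast, hm', one_zpow, mul_one,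
            pow_one] at h8
          exact h8
        rw [h7]
        exact K.zpow_mem h3 _
    obtain ⟨H0, hKH0, hH0D, hH0i⟩ := BAP_max p hp K D hDp hKD hKneD
    have hlt : Nat.card T1 < n := by
      rw [← hn]
      refine lt_of_le_of_ne (Subgroup.card_le_of_le hT1T) fun h => hT1ne ?_
      exact (Subgroup.eq_of_le_of_card_ge hT1T h.ge).ge
    have hmul : C.relIndex T1 * T1.relIndex T = C.relIndex T := Subgroup.relIndex_mul_relIndex C T1 T hCT1 hT1T
    obtain ⟨S, hS1, hS2, hS3⟩ := IH _ hlt T1 rfl hCT1 (fun t ht => hTD t (hT1T ht)) (fun t ht => hTC t (hT1T ht))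
      (fun h => hpi (hmul ▸ Dvd.dvd.mul_right h _)) (fun a ha b hb => hcom a (hT1T ha) b (hT1T hb))
    refine ⟨insert H0 S, ?_, ?_, ?_⟩
    · intro H hH
      rcases Finset.mem_insert.1 hH with rfl | hH
      · exact ⟨hH0D, hH0i⟩
      · exact hS1 H hH
    · rintro u hu ⟨t, ht, htC, htu⟩
      by_cases huH : u ∈ H0
      · exact ⟨H0, Finset.mem_insert_self _ _, huH⟩
      · have htT1 : t ∈ T1 := by
          by_contra hcon
          exact huH (hKH0 (claim t ht hcon u hu htu))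
        obtain ⟨H, hH, huH⟩ := hS2 u hu ⟨t, htT1, htC, htu⟩
        exact ⟨H, Finset.mem_insert_of_mem hH, huH⟩
    · refine (Finset.card_insert_le _ _).trans ?_
      have hne0 : C.relIndex T ≠ 0 := fun h => hpi (h ▸ dvd_zero p)
      have ha0 : C.relIndex T1 ≠ 0 := fun h => hne0 (by rw [← hmul, h, zero_mul])
      have hb0 : T1.relIndex T ≠ 0 := fun h => hne0 (by rw [← hmul, h, mul_zero])
      have hb1 : T1.relIndex T ≠ 1 := fun h => hT1ne (Subgroup.relIndex_eq_one.1 h)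
      have hlen : (C.relIndex T).primeFactorsList.length =
          (C.relIndex T1).primeFactorsList.length + (T1.relIndex T).primeFactorsList.length := by
        rw [← hmul, (Nat.perm_primeFactorsList_mul ha0 hb0).length_eq, List.length_append]
      have hpos : 0 < (T1.relIndex T).primeFactorsList.length := by
        rw [List.length_pos_iff]
        intro h
        rcases (Nat.primeFactorsList_eq_nil _).1 h with h | h
        · exact hb0 h
        · exact hb1 h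
      omega

end Pool.Agent.FI4B
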